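import Pool.Agent.R684.FP.Gpv

/-!
# Extensions whose kernel is a graph product

`C` is any class of groups with the closure properties `ClosedE C` which contains the groups `F ⋊ Z` for
all free groups `F` and all automorphisms of `F`. All this is published for the class of groups which
satisfy the Full Farrell–Jones Conjecture.

Let `N` be a normal subgroup of `G` such that `G ⧸ N` is in `C`, and suppose that `N` is the graph product
of subgroups `A v` over a simple graph `Λ` with vertex set `V` (finite or infinite). Suppose

* for every vertex `v` and every `g` in `G` a power `g ^ k`, `k > 0`, maps `A v` to an `N`-conjugate of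
  `A v`;
* `V` is finite, or the elements of `G` map each `A v` to an `N`-conjugate of some `A w`;
* `A v ⟨g⟩` is in `C` for all `v` and all `g` in `G` that normalize `A v`.

Then `G` is in `C`. The elements of `G` may conjugate the vertex groups by different elements of `N`, as
partial conjugations do. For finite vertex groups and, more generally, for vertex groups all of whose
mapping tori are in `C` the third condition holds. When `V` is finite and all `A v` are finite, the first
condition holds for every extension `G`, because `N` has finitely many conjugacy classes of finite
subgroups (not formalised here). So `C` is closed under extensions whose kernels are graph products of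
finite groups over finite graphs, for instance right-angled Coxeter groups; and it contains the mapping
tori of all their automorphisms.

Outline of the proof.

* Let `v` be a vertex, let `R` be generated by the other vertex groups and `L` by the vertex groups
  adjacent to `A v`. The universal property gives a homomorphism from `N` to `(*_{R/L} A v) ⋊ R`; it shows
  that the normal closure `M` of `A v` in `N` is the free product of the conjugates of `A v` by
  representatives of `R/L`, and `N ⧸ M` is the graph product of the images of the other vertex groups.
* If `G` fixes the `N`-class of `A v` then it permutes the `M`-classes of these free factors, so the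
  theorem on free products (R684, Main) shows that `G` is in `C` if `G ⧸ M` is. If `ḡ` in `G ⧸ M` normalizes
  the image of `A w`, then it acts on it like the product of an element of `A w` with an element of `G`
  that normalizes `A w`; so the third condition holds for the quotient. This is the case that `V` is finite
  and all classes are fixed, by induction.
* In general the criterion for finite sets of elements of the kernel (R779) reduces the theorem to the
  quotients of `N ⟨g⟩` by the normal closure of the vertex groups outside a finite `⟨g⟩`-invariant set of
  vertices, and a subgroup of finite index of such a quotient fixes all classes.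
-/

set_option autoImplicit false

namespace Pool.Agent.Results.MP_b6f35e_al.GraphProductExtensions

open Pool.Agent.Y110.FJ Pool.Agent.R684.FP

theorem result (C : ∀ (G : Type) [Group G], Prop) (hC : ClosedE C)
    (hF : ∀ (X : Type) (α : MulAut (FreeGroup X)),
      C (FreeGroup X ⋊[zpowersHom (MulAut (FreeGroup X)) α] Multiplicative ℤ))
    (G : Type) [Group G] (N : Subgroup G) [N.Normal] (hQ : C (G ⧸ N))
    (V : Type) (Λ : SimpleGraph V) (A : V → Subgroup G) (hA : IsGP Λ A N)
    (hfix : ∀ (g : G) (v : V), ∃ k : ℕ, 0 < k ∧ ∃ n ∈ N, ∀ x, x ∈ A v ↔
      n * (g ^ k * x * (g ^ k)⁻¹) * n⁻¹ ∈ A v)
    (hperm : Finite V ∨ ∀ (g : G) (v : V), ∃ w, ∃ n ∈ N, ∀ x, x ∈ A v ↔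
      n * (g * x * g⁻¹) * n⁻¹ ∈ A w)
    (hcyc : ∀ (v : V) (g : G), (∀ x, x ∈ A v ↔ g * x * g⁻¹ ∈ A v) →
      C ↥(A v ⊔ Subgroup.zpowers g)) : C G :=
  gp_ext hC hF hA hQ hfix hperm hcyc

end Pool.Agent.Results.MP_b6f35e_al.GraphProductExtensions
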