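import Pool.Agent.R933.Gk.Fin

/-!
# Extensions by right-angled Coxeter groups and other graph products

`C` is any class of groups with the closure properties `ClosedE C` which contains the groups `F ⋊ ℤ` for
all free groups `F` and all automorphisms of `F`. All this is published for the class of the groups that
satisfy the K- and L-theoretic Farrell–Jones conjecture with coefficients and finite wreath products.

Let `N` be a normal subgroup of `G` with `G ⧸ N` in `C`, and let `N` be the graph product of finitely many
groups `A v`, `v ∈ V`, over a graph on `V` (`e` is the embedding of the abstract graph product).

(1) Suppose that the conjugation by each `g ∈ G` maps each vertex group `A v` onto an `N`-conjugate of a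
vertex group `A w` (the conjugating elements may be different for different `v`), and that the mapping
tori `A v ⋊ ℤ` of all automorphisms of the vertex groups are in `C`. Then `G` is in `C`.

(2) If the vertex groups are finite cyclic groups, then `G` is in `C`, without any condition on the
action of `G` on `N`. In particular `C` is closed under extensions with kernel a finitely generated
right-angled Coxeter group, with arbitrary outer action of the quotient.

Outline of the proof.

* The elements of `G` that preserve the `N`-conjugacy classes of all vertex groups form a subgroup of finite
  index. In (2) this holds since there are only finitely many conjugacy classes of elements of finite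
  order in `N` (they are permuted by `G`): an element of finite order of a graph product is conjugate into
  the product of the vertex groups of a clique. This is proved with the decomposition below and
  cyclically reduced words.
* Let `U` be a set of vertices and `v` another one. The kernel of the retraction from the graph product over
  `U ∪ {v}` to the one over `U` is the free product of the conjugates of `A v` by representatives of the
  cosets in `N_U ⧸ N_L`, `L` the set of neighbours of `v` in `U`.
* Let `K_U` be the normal closure in `N` of the vertex groups outside `U`; it is normal in `G`. The kernel of
  `G ⧸ K_{U ∪ v} → G ⧸ K_U` is the above free product, whose factors are mapped to conjugates of factors. By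
  the theorem on extensions whose kernel is a free product (R684; here the free-by-cyclic groups are
  used) `G ⧸ K_{U ∪ v}` is in `C` if `G ⧸ K_U` is. By induction one gets from `G ⧸ N` to `G`.
-/

set_option autoImplicit false

namespace Pool.Agent.Results.MP_b6f35e_al.GraphProductKernels

open Pool.Agent.Y110.FJ Pool.Agent.R933.Gk

theorem result (C : ∀ (G : Type) [Group G], Prop) (hC : ClosedE C)
    (hF : ∀ (X : Type) (α : MulAut (FreeGroup X)),
      C (FreeGroup X ⋊[zpowersHom (MulAut (FreeGroup X)) α] Multiplicative ℤ))
    (G V : Type) [Group G] [Finite V] (Λ : SimpleGraph V) (A : V → Type) [∀ v, Group (A v)]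
    (e : GrP Λ A →* G) (he : Function.Injective e) [e.range.Normal] (hQ : C (G ⧸ e.range)) :
    ((∀ (v : V) (α : MulAut (A v)), C (A v ⋊[zpowersHom (MulAut (A v)) α] Multiplicative ℤ)) →
      (∀ (g : G) (v : V), ∃ w, ∃ n ∈ e.range, ∀ x, x ∈ (e.comp (GrP.of Λ A v)).range ↔
        n * (g * x * g⁻¹) * n⁻¹ ∈ (e.comp (GrP.of Λ A w)).range) → C G) ∧
    ((∀ v, Finite (A v)) → (∀ v, IsCyclic (A v)) → C G) := by
  refine ⟨fun hT hc => main2 hC hF he hT (fun g v => ?_) hQ,
    fun hA hcy => main3 hC hF he hA hcy hQ⟩
  obtain ⟨w, n, ⟨m, rfl⟩, hm⟩ := hc g v
  exact ⟨w, m, hm⟩

end Pool.Agent.Results.MP_b6f35e_al.GraphProductKernels
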