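import Pool.Agent.R630.FJ.Vq

/-!
# Quotients by verbal subgroups of free kernels, and products of varieties

`C` is any class of groups with the closure properties `ClosedE C`, all of which are known for the
class of the groups that satisfy the K- and L-theoretic Farrell–Jones conjecture with coefficients and
finite wreath products.

Let `W` be a set of words such that the relatively free groups `F ⧸ W(F)`, `F` free of finite rank, are
in `C` (for instance the words of a locally finite or a nilpotent variety, or `x ^ n` for large odd `n`: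
the free Burnside groups of finite rank are then directed colimits of hyperbolic groups). Let `Γ` be
the free product of a free group and of arbitrary groups `A i`, and `N` a normal subgroup of `Γ` which
meets the `A i` trivially, so that `N` is a free group. If `Γ ⧸ N` is in `C` then so is `Γ ⧸ W(N)`.

Outline of the proof. There is a basis `E = (Γ ⧸ N) × (X ⊕ I)` and a homomorphism
`θ : Γ → F(E) ⋊ (Γ ⧸ N)`, `x ↦ e_x x`, `a ↦ e_i a e_i⁻¹`, over `Γ ⧸ N`, with a homomorphism `r : F(E) → N`
such that `r (θ n) = n` for `n ∈ N`; so `N` is a retract of `F(E)`, `W(N) = N ∩ W(F(E))`, and `Γ ⧸ W(N)`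
embeds in `F(E) ⧸ W(F(E)) ⋊ (Γ ⧸ N)` (for `Γ` free this is the embedding of Magnus and Shmel'kin). Here
`Γ ⧸ N` acts by permutations of the basis. On a finite set of elements such a permutation agrees
with one of finite order, so all finite pieces of the conjugations are realized in extensions of the
relatively free group by finite cyclic groups, and the realization criterion applies.
-/

set_option autoImplicit false

namespace Pool.Agent.Results.MP_b6f35e_al.VarietalQuotients

open Pool.Agent.Y110.FJ

/-- The verbal subgroup `W(G)`: the subgroup generated by all values in `G` of the words in `W`. -/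
def verbal (W : Set (FreeGroup ℕ)) (G : Type) [Group G] : Subgroup G :=
  Subgroup.closure {g : G | ∃ w ∈ W, ∃ f : ℕ → G, FreeGroup.lift f w = g}

/-- the verbal subgroup `W(N)` of a subgroup `N` of `G`, as a subgroup of `G` -/
def verbalIn (W : Set (FreeGroup ℕ)) {G : Type} [Group G] (N : Subgroup G) : Subgroup G :=
  (verbal W N).map N.subtype

instance verbalIn_normal (W : Set (FreeGroup ℕ)) {G : Type} [Group G] (N : Subgroup G) [N.Normal] :
    (verbalIn W N).Normal := Pool.Agent.R630.FJ.verbalIn_normal W N

instance verbal_normal (W : Set (FreeGroup ℕ)) (G : Type) [Group G] : (verbal W G).Normal :=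
  Pool.Agent.R630.FJ.verbal_normal W G

/-- the relatively free groups of finite rank of the variety defined by `W` are in `C` -/
def RelFreeIn (C : ∀ (G : Type) [Group G], Prop) (W : Set (FreeGroup ℕ)) : Prop :=
  ∀ m : ℕ, C (FreeGroup (Fin m) ⧸ verbal W (FreeGroup (Fin m)))

/-- `Γ` is the free product of the free group with the basis `x` and of the groups `A i`, embedded by
`a i` -/
structure IsFreeProduct {Γ X I : Type} [Group Γ] {A : I → Type} [∀ i, Group (A i)] (x : X → Γ)
    (a : ∀ i, A i →* Γ) : Prop where
  gen : ∀ K : Subgroup Γ, (∀ i, x i ∈ K) → (∀ i y, a i y ∈ K) → K = ⊤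
  lift : ∀ (H : Type) [Group H] (f : X → H) (g : ∀ i, A i →* H),
    ∃ h : Γ →* H, (∀ i, h (x i) = f i) ∧ ∀ i y, h (a i y) = g i y

/-- the normal subgroup `W₁ (W₂ (⋯ (W_k (G)) ⋯))` -/
def iter (G : Type) [Group G] : List (Set (FreeGroup ℕ)) → Subgroup G
  | [] => ⊤
  | W :: L => verbalIn W (iter G L)

instance iter_normal (G : Type) [Group G] : ∀ L : List (Set (FreeGroup ℕ)), (iter G L).Normal
  | [] => inferInstanceAs (⊤ : Subgroup G).Normal
  | W :: L => by
    have := iter_normal G L
    exact verbalIn_normal W (iter G L)

/-- the homomorphism from the free product to the product -/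
def toPi {I : Type} (A : I → Type) [∀ i, Group (A i)] [DecidableEq I] :
    Monoid.CoprodI A →* ∀ i, A i :=
  Monoid.CoprodI.lift fun i => MonoidHom.mulSingle A i

variable {C : ∀ (G : Type) [Group G], Prop}

theorem iter_mem (hC : ClosedE C) (X : Type) : ∀ L : List (Set (FreeGroup ℕ)),
    (∀ W ∈ L, RelFreeIn C W) → C (FreeGroup X ⧸ iter (FreeGroup X) L)
  | [], _ => by
    refine hC.base.of_injective _ (Multiplicative ℤ) 1 ?_ hC.base.int
    intro a b _
    obtain ⟨a, rfl⟩ := QuotientGroup.mk_surjective a
    obtain ⟨b, rfl⟩ := QuotientGroup.mk_surjective b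
    exact QuotientGroup.eq.2 trivial
  | W :: L, h => by
    have h1 := iter_mem hC X L (fun V hV => h V (List.mem_cons_of_mem _ hV))
    refine Pool.Agent.R630.FJ.varietal (x := FreeGroup.of)
      (a := fun i : Empty => (nomatch i : Unit →* FreeGroup X)) W
      (iter (FreeGroup X) L) hC (h W List.mem_cons_self) ⟨fun K h _ => ?_, fun H _ f g => ⟨FreeGroup.lift f,
        fun i => ?_, fun i => nomatch i⟩⟩ (fun i => nomatch i) h1
    · rw [eq_top_iff]
      intro y _
      induction y using FreeGroup.induction_on with
      | C1 => exact K.one_mem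
      | of s => exact h s
      | inv_of s _ => exact K.inv_mem (h s)
      | mul x y hx hy => exact K.mul_mem (hx trivial) (hy trivial)
    · rw [FreeGroup.lift_apply_of]

theorem pi_mem (hC : ClosedE C) {I : Type} (A : I → Type) [∀ i, Group (A i)] (hA : ∀ i, C (A i))
    (s : Finset I) : C (∀ i : s, A i) := by
  classical
  induction s using Finset.induction_on with
  | empty =>
    refine hC.base.of_injective _ (Multiplicative ℤ) 1 (fun a b _ => ?_) hC.base.int
    funext i
    exact absurd i.2 (Finset.notMem_empty _)
  | insert j s _ ih =>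
    let f : (∀ i : (insert j s : Finset I), A i) →* A j × (∀ i : s, A i) :=
      { toFun := fun g => (g ⟨j, Finset.mem_insert_self j s⟩,
          fun i => g ⟨i, Finset.mem_insert_of_mem i.2⟩)
        map_one' := rfl
        map_mul' := fun _ _ => rfl }
    refine hC.base.of_injective _ _ f (fun a b hab => ?_) (hC.base.prod _ _ (hA j) ih)
    obtain ⟨h1, h2⟩ := Prod.mk.inj hab
    funext i
    obtain ⟨i, hi⟩ := i
    rcases Finset.mem_insert.1 hi with h | h
    · subst h; exact h1
    · exact congrFun h2 ⟨i, h⟩

theorem sum_mem (hC : ClosedE C) {I : Type} [DecidableEq I] (A : I → Type) [∀ i, Group (A i)]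
    (hA : ∀ i, C (A i)) : C (Monoid.CoprodI A ⧸ (toPi A).ker) := by
  have hR : C (toPi A).range := by
    let Ks : Finset I → Subgroup (toPi A).range := fun s =>
      { carrier := {f | ∀ i, i ∉ s → (f : ∀ i, A i) i = 1}
        one_mem' := fun i _ => rfl
        mul_mem' := by
          intro f g hf hg i hi
          show (f : ∀ i, A i) i * (g : ∀ i, A i) i = 1
          rw [hf i hi, hg i hi, one_mul]
        inv_mem' := by
          intro f hf i hi
          show ((f : ∀ i, A i) i)⁻¹ = 1
          rw [hf i hi, inv_one] }
    refine Pool.Agent.Y430.SS.of_directed hC.base (toPi A).range (Finset I)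
      (fun i j => ⟨i ∪ j, Finset.subset_union_left, Finset.subset_union_right⟩) Ks ?_ ?_ ?_
    · intro s t hst f hf i hi
      exact hf i (fun h => hi (hst h))
    · rintro ⟨_, w, rfl⟩
      induction w using Monoid.CoprodI.induction_on with
      | one =>
        refine ⟨∅, fun i _ => ?_⟩
        have h1 : toPi A 1 = 1 := map_one _
        show toPi A 1 i = 1
        rw [h1]
        rfl
      | of i y =>
        refine ⟨{i}, fun j hj => ?_⟩
        have hji : j ≠ i := fun h => hj (by rw [h]; exact Finset.mem_singleton_self i)
        show toPi A (Monoid.CoprodI.of y) j = 1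
        unfold toPi
        rw [Monoid.CoprodI.lift_of]
        exact Pi.mulSingle_eq_of_ne hji y
      | mul x y hx hy =>
        obtain ⟨s, hs⟩ := hx
        obtain ⟨t, ht⟩ := hy
        refine ⟨s ∪ t, fun i hi => ?_⟩
        rw [Finset.mem_union, not_or] at hi
        have h1 : toPi A x i = 1 := hs i hi.1
        have h2 : toPi A y i = 1 := ht i hi.2
        show toPi A (x * y) i = 1
        rw [map_mul, Pi.mul_apply, h1, h2, one_mul]
    · intro s
      let f : Ks s →* ∀ i : s, A i :=
        { toFun := fun g i => ((g : (toPi A).range) : ∀ i, A i) i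
          map_one' := rfl
          map_mul' := fun _ _ => rfl }
      refine hC.base.of_injective _ _ f (fun a b hab => ?_) (pi_mem hC A hA s)
      apply Subtype.ext
      apply Subtype.ext
      funext i
      by_cases hi : i ∈ s
      · exact congrFun hab ⟨i, hi⟩
      · rw [a.2 i hi, b.2 i hi]
  exact hC.base.of_injective _ _ (QuotientGroup.quotientKerEquivRange (toPi A)).toMonoidHom
    (MulEquiv.injective _) hR

/-- Let `C` be a class of groups with the closure properties `ClosedE C`, and let `W` be a set of words
whose relatively free groups of finite rank are in `C`.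
(1) Let `Γ` be the free product of a free group and of groups `A i`, and let `N` be a normal subgroup of
`Γ` that meets the `A i` trivially. If `Γ ⧸ N` is in `C` then so is `Γ ⧸ W(N)`.
(2) If the groups `A i` are in `C` then so is their verbal product, the quotient of the free product by
`W(N)`, where `N` is the kernel of the homomorphism to the direct product.
(3) Let `W₁, …, W_k` be sets of words with relatively free groups of finite rank in `C`. Then the
relatively free groups `F ⧸ W₁(W₂(⋯ W_k(F)))` of any rank of the product variety are in `C`. -/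
theorem result (C : ∀ (G : Type) [Group G], Prop) (hC : ClosedE C) (W : Set (FreeGroup ℕ))
    (hW : RelFreeIn C W) :
    (∀ (Γ X I : Type) [Group Γ] (A : I → Type) [∀ i, Group (A i)] (x : X → Γ) (a : ∀ i, A i →* Γ),
      IsFreeProduct x a → ∀ (N : Subgroup Γ) [N.Normal], (∀ i y, a i y ∈ N → y = 1) →
      C (Γ ⧸ N) → C (Γ ⧸ verbalIn W N)) ∧
    (∀ (I : Type) [DecidableEq I] (A : I → Type) [∀ i, Group (A i)], (∀ i, C (A i)) →
      C (Monoid.CoprodI A ⧸ verbalIn W (toPi A).ker)) ∧
    (∀ (X : Type) (L : List (Set (FreeGroup ℕ))), (∀ V ∈ L, RelFreeIn C V) →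
      C (FreeGroup X ⧸ iter (FreeGroup X) L)) := by
  have h1 : ∀ (Γ X I : Type) [Group Γ] (A : I → Type) [∀ i, Group (A i)] (x : X → Γ)
      (a : ∀ i, A i →* Γ),
      IsFreeProduct x a → ∀ (N : Subgroup Γ) [N.Normal], (∀ i y, a i y ∈ N → y = 1) →
      C (Γ ⧸ N) → C (Γ ⧸ verbalIn W N) := by
    intro Γ X I _ A _ x a hΓ N _ hN hQ
    exact Pool.Agent.R630.FJ.varietal W N hC hW ⟨hΓ.gen, hΓ.lift⟩ hN hQ
  refine ⟨h1, ?_, fun X L hL => iter_mem hC X L hL⟩
  intro I _ A _ hA
  refine h1 (Monoid.CoprodI A) Empty I A (fun i : Empty => i.elim) (fun i => Monoid.CoprodI.of)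
    ⟨fun K _ h => ?_, fun H _ f g => ⟨Monoid.CoprodI.lift g, fun i : Empty => i.elim,
      fun i y => Monoid.CoprodI.lift_of _ _⟩⟩ (toPi A).ker (fun i y hy => ?_) (sum_mem hC A hA)
  · rw [eq_top_iff]
    intro y _
    induction y using Monoid.CoprodI.induction_on with
    | one => exact K.one_mem
    | of i y => exact h i y
    | mul x y hx hy => exact K.mul_mem (hx trivial) (hy trivial)
  · have h2 : toPi A (Monoid.CoprodI.of y) i = 1 := by
      rw [(MonoidHom.mem_ker (f := toPi A)).1 hy]; rfl
    unfold toPi at h2
    rw [Monoid.CoprodI.lift_of] at h2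
    have h3 : (Pi.mulSingle i y : ∀ i, A i) i = 1 := h2
    rwa [Pi.mulSingle_eq_same] at h3

end Pool.Agent.Results.MP_b6f35e_al.VarietalQuotients
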